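import Pool.Agent.Helper16.NP.EigenA

/-!
Task C of MP_f4a5f6_an: from an integral equation on the line to an eigenfunction in `H^{1/2}`.
-/

set_option autoImplicit false
open Set MeasureTheory Filter Topology
open scoped ENNReal RealInnerProductSpace
open Pool.Agent.Helper59.NP

namespace Pool.Agent.Helper16.NP

variable {η : ℝ → ℝ}

/-! ### the primitive -/

/-- the primitive -/
noncomputable def gg (φ : V) (a : ℝ) (x : ℝ) : ℝ := a + ∫ t in (0 : ℝ)..x, φ t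

theorem locInt (φ : V) : LocallyIntegrable (φ : ℝ → ℝ) volume :=
  (Lp.memLp φ).locallyIntegrable (by norm_num)

theorem intInt (φ : V) (a b : ℝ) : IntervalIntegrable (φ : ℝ → ℝ) volume a b :=
  intervalIntegrable_iff.mpr <|
      ((locInt φ).integrableOn_isCompact isCompact_uIcc).mono_set uIoc_subset_uIcc

theorem gg_continuous (φ : V) (a : ℝ) : Continuous (gg φ a) :=
  continuous_const.add (intervalIntegral.continuous_primitive (intInt φ) 0)

theorem gg_sub (φ : V) (a x y : ℝ) : gg φ a y - gg φ a x = ∫ t in x..y, φ t := by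
  unfold gg
  rw [add_sub_add_left_eq_sub]
  exact intervalIntegral.integral_interval_sub_left (intInt φ _ _) (intInt φ _ _)

/-- indicator of the interval between `-t` and `0` -/
noncomputable def Hk (t : ℝ) (r : ℝ) : ℝ≥0∞ := ({r : ℝ | -r ∈ uIoc 0 t}).indicator 1 r

theorem Hk_measurable (t : ℝ) : Measurable (Hk t) := by
  unfold Hk
  refine Measurable.indicator measurable_one ?_
  exact measurable_neg measurableSet_uIoc

theorem lintegral_Hk (t : ℝ) : ∫⁻ r, Hk t r = ENNReal.ofReal |t| := by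
  unfold Hk
  have hm : MeasurableSet {r : ℝ | -r ∈ uIoc 0 t} := measurable_neg measurableSet_uIoc
  rw [lintegral_indicator_one hm]
  have : {r : ℝ | -r ∈ uIoc 0 t} = -(uIoc 0 t) := rfl
  rw [this, Measure.measure_neg, Real.volume_uIoc, sub_zero]

theorem enorm_gg_sub_le (φ : V) (a x t : ℝ) :
    ‖gg φ a (x + t) - gg φ a x‖ₑ ≤ ∫⁻ s, Hk t (x - s) * ‖φ s‖ₑ := by
  rw [gg_sub]
  have h1 : ‖∫ s in x..(x + t), φ s‖ₑ = ‖∫ s in uIoc x (x + t), φ s‖ₑ := by
    rw [← ofReal_norm, ← ofReal_norm, intervalIntegral.norm_intervalIntegral_eq]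
  rw [h1]
  refine (enorm_integral_le_lintegral_enorm _).trans ?_
  rw [← lintegral_indicator measurableSet_uIoc]
  refine lintegral_mono fun s => ?_
  unfold Hk
  simp only [indicator]
  have hiff : s ∈ uIoc x (x + t) ↔ (x - s) ∈ {r : ℝ | -r ∈ uIoc 0 t} := by
    simp only [mem_uIoc, mem_ofPred_eq]
    constructor
    · rintro (h | h)
      · left; constructor <;> linarith [h.1, h.2]
      · right; constructor <;> linarith [h.1, h.2]
    · rintro (h | h)
      · left; constructor <;> linarith [h.1, h.2]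
      · right; constructor <;> linarith [h.1, h.2]
  by_cases hs : s ∈ uIoc x (x + t)
  · rw [if_pos hs, if_pos (hiff.mp hs)]
    simp
  · rw [if_neg hs]
    exact zero_le

theorem lintegral_gg_sub_le (φ : V) (a t : ℝ) :
    ∫⁻ x, ‖gg φ a x - gg φ a (x + t)‖ₑ ^ 2 ≤ ENNReal.ofReal |t| ^ 2 * ∫⁻ s, ‖φ s‖ₑ ^ 2 := by
  calc ∫⁻ x, ‖gg φ a x - gg φ a (x + t)‖ₑ ^ 2
      ≤ ∫⁻ x, (∫⁻ s, Hk t (x - s) * ‖φ s‖ₑ) ^ 2 := by
        refine lintegral_mono fun x => ?_
        have := enorm_gg_sub_le φ a x t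
        simp only
        rw [← enorm_neg, neg_sub]
        gcongr
    _ ≤ (∫⁻ r, Hk t r) ^ 2 * ∫⁻ s, ‖φ s‖ₑ ^ 2 :=
        lintegral_young (Hk t) (fun s => ‖φ s‖ₑ) (Hk_measurable t) (measurable_coe φ).enorm
    _ = _ := by rw [lintegral_Hk]

theorem gg_sub_sq_le (φ : V) (a x : ℝ) :
    (gg φ a x - a) ^ 2 ≤ |x| * (∫⁻ s, ‖φ s‖ₑ ^ 2).toReal := by
  have h0 : gg φ a 0 = a := by unfold gg; simp
  have h1 := enorm_gg_sub_le φ a 0 x
  rw [zero_add, h0] at h1
  have h2 := sq_lintegral_le (Hk x) (fun s => ‖φ s‖ₑ) (Hk_measurable x) (measurable_coe φ).enorm 0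
  have h3 : ∫⁻ s, Hk x (0 - s) * ‖φ s‖ₑ ^ 2 ≤ ∫⁻ s, ‖φ s‖ₑ ^ 2 := by
    refine lintegral_mono fun s => ?_
    have : Hk x (0 - s) ≤ 1 := by
      unfold Hk
      simp only [indicator]
      split_ifs <;> simp
    calc Hk x (0 - s) * ‖φ s‖ₑ ^ 2 ≤ 1 * ‖φ s‖ₑ ^ 2 := by gcongr
      _ = _ := one_mul _
  have h4 : ‖gg φ a x - a‖ₑ ^ 2 ≤ ENNReal.ofReal |x| * ∫⁻ s, ‖φ s‖ₑ ^ 2 := by
    calc ‖gg φ a x - a‖ₑ ^ 2 ≤ (∫⁻ s, Hk x (0 - s) * ‖φ s‖ₑ) ^ 2 := by gcongr
      _ ≤ _ := h2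
      _ ≤ _ := by
        rw [lintegral_Hk]
        gcongr
  have h5 : ENNReal.ofReal |x| * ∫⁻ s, ‖φ s‖ₑ ^ 2 ≠ ∞ :=
    ENNReal.mul_ne_top ENNReal.ofReal_ne_top (lintegral_sq_lt_top φ).ne
  have h6 := ENNReal.toReal_mono h5 h4
  rw [ENNReal.toReal_mul, ENNReal.toReal_ofReal (abs_nonneg x), ENNReal.toReal_pow, toReal_enorm,
    Real.norm_eq_abs, sq_abs] at h6
  exact h6

theorem exists_gg_bound (φ : V) (a : ℝ) : ∃ B : ℝ, 0 ≤ B ∧ ∀ x,
    |gg φ a x| ≤ B * (1 + x ^ 2) ∧ gg φ a x ^ 2 ≤ B * (1 + x ^ 2) := by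
  set Q := (∫⁻ s, ‖φ s‖ₑ ^ 2).toReal with hQ
  have hQ0 : 0 ≤ Q := ENNReal.toReal_nonneg
  refine ⟨1 + (2 * a ^ 2 + Q), by positivity, fun x => ?_⟩
  have h1 := gg_sub_sq_le φ a x
  rw [← hQ] at h1
  have h2 : 2 * |x| ≤ 1 + x ^ 2 := by
    rw [← sq_abs x]; nlinarith [sq_nonneg (|x| - 1)]
  have h3 : gg φ a x ^ 2 ≤ (2 * a ^ 2 + Q) * (1 + x ^ 2) := by
    have h4 : gg φ a x ^ 2 ≤ 2 * a ^ 2 + 2 * (gg φ a x - a) ^ 2 := by
      nlinarith [sq_nonneg (gg φ a x - 2 * a)]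
    nlinarith [sq_nonneg x, mul_nonneg (sq_nonneg a) (sq_nonneg x)]
  have h5 : |gg φ a x| ≤ 1 + gg φ a x ^ 2 := by
    rw [← sq_abs]; nlinarith [sq_nonneg (|gg φ a x| - 1), abs_nonneg (gg φ a x)]
  constructor
  · nlinarith [sq_nonneg x]
  · nlinarith [sq_nonneg x]

/-- the double integral of the Gagliardo seminorm -/
theorem double_lt_top (φ : V) (a : ℝ) :
    ∫⁻ x : ℝ, ∫⁻ y : ℝ, ‖gg φ a x - gg φ a y‖ₑ ^ 2
      * ENNReal.ofReal ((Real.cosh (x - y) - 1)⁻¹) < ∞ := by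
  have hg := gg_continuous φ a
  have hm : Measurable fun p : ℝ × ℝ => ‖gg φ a p.1 - gg φ a (p.1 + p.2)‖ₑ ^ 2
      * ENNReal.ofReal ((Real.cosh p.2 - 1)⁻¹) := by
    have := hg.measurable
    have hc := Real.continuous_cosh.measurable
    fun_prop
  calc ∫⁻ x : ℝ, ∫⁻ y : ℝ, ‖gg φ a x - gg φ a y‖ₑ ^ 2
        * ENNReal.ofReal ((Real.cosh (x - y) - 1)⁻¹)
      = ∫⁻ x : ℝ, ∫⁻ t : ℝ, ‖gg φ a x - gg φ a (x + t)‖ₑ ^ 2
        * ENNReal.ofReal ((Real.cosh t - 1)⁻¹) := by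
        refine lintegral_congr fun x => ?_
        rw [← lintegral_add_left_eq_self _ x]
        refine lintegral_congr fun t => ?_
        rw [show x - (x + t) = -t by ring, Real.cosh_neg]
    _ = ∫⁻ t : ℝ, ∫⁻ x : ℝ, ‖gg φ a x - gg φ a (x + t)‖ₑ ^ 2
        * ENNReal.ofReal ((Real.cosh t - 1)⁻¹) := lintegral_lintegral_swap hm.aemeasurable
    _ ≤ ∫⁻ t : ℝ, (∫⁻ s, ‖φ s‖ₑ ^ 2) * ENNReal.ofReal (t ^ 2 / (Real.cosh t - 1)) := by
        refine lintegral_mono fun t => ?_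
        have hmx : Measurable fun x => ‖gg φ a x - gg φ a (x + t)‖ₑ ^ 2 := by
          have := hg.measurable
          fun_prop
        simp only
        rw [lintegral_mul_const _ hmx]
        calc (∫⁻ x, ‖gg φ a x - gg φ a (x + t)‖ₑ ^ 2) * ENNReal.ofReal ((Real.cosh t - 1)⁻¹)
            ≤ (ENNReal.ofReal |t| ^ 2 * ∫⁻ s, ‖φ s‖ₑ ^ 2)
              * ENNReal.ofReal ((Real.cosh t - 1)⁻¹) := by
              gcongr
              exact lintegral_gg_sub_le φ a t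
          _ = (∫⁻ s, ‖φ s‖ₑ ^ 2) * (ENNReal.ofReal |t| ^ 2
              * ENNReal.ofReal ((Real.cosh t - 1)⁻¹)) := by ring
          _ = (∫⁻ s, ‖φ s‖ₑ ^ 2) * ENNReal.ofReal (t ^ 2 / (Real.cosh t - 1)) := by
              rw [← ENNReal.ofReal_pow (abs_nonneg t), ← ENNReal.ofReal_mul (by positivity),
                sq_abs, div_eq_mul_inv]
    _ = (∫⁻ s, ‖φ s‖ₑ ^ 2) * ∫⁻ t : ℝ, ENNReal.ofReal (t ^ 2 / (Real.cosh t - 1)) := by
        rw [lintegral_const_mul]
        have hc := Real.continuous_cosh.measurable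
        fun_prop
    _ < ∞ := ENNReal.mul_lt_top (lintegral_sq_lt_top φ) lintegral_sq_div_lt_top

theorem phi_eq_zero (φ : V) (a : ℝ) (h0 : ∀ x, gg φ a x = 0) : φ = 0 := by
  have h1 := LocallyIntegrable.ae_hasDerivAt_integral (locInt φ)
  rw [Lp.ext_iff]
  filter_upwards [h1, Lp.coeFn_zero ℝ 2 (volume : Measure ℝ)] with x hx hx2
  have h2 := hx 0
  have h3 : (fun x => ∫ t in (0 : ℝ)..x, φ t) = fun _ => -a := by
    funext y
    have := h0 y
    unfold gg at this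
    linarith
  rw [h3] at h2
  rw [hx2]
  exact h2.unique (hasDerivAt_const x (-a))

/-! ### the function on the curve -/

/-- the function on the curve -/
noncomputable def ff (φ : V) (a : ℝ) (z : ℂ) : ℂ := ((gg φ a (Real.log ‖z / (1 - z)‖) : ℝ) : ℂ)

theorem ff_measurable (φ : V) (a : ℝ) : Measurable (ff φ a) := by
  unfold ff
  have := (gg_continuous φ a).measurable
  have h2 := Real.measurable_log
  fun_prop

theorem Z_div (h : IsBump η) (x : ℝ) : Z η x / (1 - Z η x) = EE η x := by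
  have h1 := one_add_EE_ne h x
  rw [Z_eq]
  have h2 : 1 - EE η x / (1 + EE η x) = 1 / (1 + EE η x) := by
    field_simp
    ring
  rw [h2]
  field_simp

theorem ff_Z (h : IsBump η) (φ : V) (a x : ℝ) : ff φ a (Z η x) = (gg φ a x : ℂ) := by
  unfold ff
  rw [Z_div h, norm_EE, Real.log_exp]

theorem ff_conj (h : IsBump η) (φ : V) (a x : ℝ) :
    ff φ a ((starRingEnd ℂ) (Z η x)) = (gg φ a x : ℂ) := by
  unfold ff
  have : (starRingEnd ℂ) (Z η x) / (1 - (starRingEnd ℂ) (Z η x))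
      = (starRingEnd ℂ) (Z η x / (1 - Z η x)) := by
    rw [map_div₀, map_sub, map_one]
  rw [this, Complex.norm_conj, Z_div h, norm_EE, Real.log_exp]

theorem ff_cases (h : IsBump η) (φ : V) (a x : ℝ) {z : ℂ}
    (hz : z = Z η x ∨ z = (starRingEnd ℂ) (Z η x)) : ff φ a z = (gg φ a x : ℂ) := by
  rcases hz with rfl | rfl
  · exact ff_Z h φ a x
  · exact ff_conj h φ a x

theorem uu_continuous (h : IsBump η) : Continuous (uu η) := by
  unfold uu
  have := h.continuous_gam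
  fun_prop

theorem Z_continuous (h : IsBump η) : Continuous (Z η) := by
  unfold Z
  have := uu_continuous h
  exact (by fun_prop : Continuous fun x => Complex.exp (uu η x)).div (by fun_prop)
    (fun x => one_add_EE_ne h x)

theorem Z'_continuous (h : IsBump η) : Continuous (Z' η) := by
  unfold Z'
  have := uu_continuous h
  have h2 := h.continuous_gam'
  exact (by fun_prop : Continuous fun x => (1 + (gam' η x : ℂ) * Complex.I)
    * Complex.exp (uu η x)).div (by fun_prop)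
    (fun x => pow_ne_zero 2 (one_add_EE_ne h x))

theorem Z'_ne (h : IsBump η) (x : ℝ) : Z' η x ≠ 0 := by
  rw [Z'_eq]
  refine div_ne_zero (mul_ne_zero ?_ (EE_ne η x)) (pow_ne_zero 2 (one_add_EE_ne h x))
  intro h0
  have := congrArg Complex.re h0
  simp at this

theorem enn_gag (h : IsBump η) {M : ℝ} (hM : ∀ x, |gam' η x| ≤ M) (x y r : ℝ) {z w : ℂ}
    (hz : z = Z η x ∨ z = (starRingEnd ℂ) (Z η x))
    (hw : w = Z η y ∨ w = (starRingEnd ℂ) (Z η y)) (hr : x = y → r = 0) :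
    ‖r‖ₑ ^ 2 / ‖z - w‖ₑ ^ 2 * ‖Z' η y‖ₑ * ‖Z' η x‖ₑ
      ≤ ENNReal.ofReal ((1 + M) ^ 2) * (‖r‖ₑ ^ 2 * ENNReal.ofReal ((Real.cosh (x - y) - 1)⁻¹)) := by
  by_cases hxy : x = y
  · rw [hr hxy]
    simp
  have hc : 0 < Real.cosh (x - y) - 1 := by
    have : x - y ≠ 0 := sub_ne_zero.mpr hxy
    linarith [Real.one_lt_cosh.mpr this]
  have h1 := gag_bound h hM x y hz hw
  have hx := norm_pos_iff.mpr (Z'_ne h x)
  have hy := norm_pos_iff.mpr (Z'_ne h y)
  have hd : 0 < ‖z - w‖ ^ 2 := by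
    by_contra hneg
    have h2 : ‖z - w‖ ^ 2 = 0 := le_antisymm (not_lt.mp hneg) (sq_nonneg _)
    rw [h2, mul_zero] at h1
    have : 0 < ‖Z' η x‖ * ‖Z' η y‖ * (2 * (Real.cosh (x - y) - 1)) := by positivity
    linarith
  rw [← ofReal_norm (z - w), ← ofReal_norm (Z' η y), ← ofReal_norm (Z' η x), ← ofReal_norm r,
    ← ENNReal.ofReal_pow (norm_nonneg _), ← ENNReal.ofReal_pow (norm_nonneg _),
    ← ENNReal.ofReal_div_of_pos hd, ← ENNReal.ofReal_mul (by positivity),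
    ← ENNReal.ofReal_mul (by positivity), ← ENNReal.ofReal_mul (by positivity),
    ← ENNReal.ofReal_mul (by positivity)]
  apply ENNReal.ofReal_le_ofReal
  have h3 : ‖Z' η x‖ * ‖Z' η y‖ / ‖z - w‖ ^ 2 ≤ (1 + M) ^ 2 * (Real.cosh (x - y) - 1)⁻¹ := by
    rw [div_le_iff₀ hd, mul_assoc, mul_comm _ (‖z - w‖ ^ 2), ← mul_assoc,
      ← div_eq_mul_inv ((1 + M) ^ 2 * ‖z - w‖ ^ 2), le_div_iff₀ hc]
    refine le_trans ?_ h1
    have : 0 < ‖Z' η x‖ * ‖Z' η y‖ := by positivity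
    nlinarith
  calc ‖r‖ ^ 2 / ‖z - w‖ ^ 2 * ‖Z' η y‖ * ‖Z' η x‖
      = ‖r‖ ^ 2 * (‖Z' η x‖ * ‖Z' η y‖ / ‖z - w‖ ^ 2) := by ring
    _ ≤ ‖r‖ ^ 2 * ((1 + M) ^ 2 * (Real.cosh (x - y) - 1)⁻¹) := by gcongr
    _ = _ := by ring

theorem enorm_ff_sub (h : IsBump η) (φ : V) (a x y : ℝ) {z w : ℂ}
    (hz : z = Z η x ∨ z = (starRingEnd ℂ) (Z η x))
    (hw : w = Z η y ∨ w = (starRingEnd ℂ) (Z η y)) :
    ‖ff φ a z - ff φ a w‖ₑ = ‖gg φ a x - gg φ a y‖ₑ := by
  rw [ff_cases h φ a x hz, ff_cases h φ a y hw, ← Complex.ofReal_sub, ← ofReal_norm,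
    Complex.norm_real, ofReal_norm]

theorem gagliardo_lt_top (h : IsBump η) {P : CurvPolygon} (hP : IsLens η P) (φ : V) (a : ℝ) :
    ∫⁻ z, ∫⁻ w, ‖ff φ a z - ff φ a w‖ₑ ^ 2 / ‖z - w‖ₑ ^ 2 ∂P.ds ∂P.ds < ∞ := by
  obtain ⟨M, hM, hg', -, -⟩ := h.exists_bound
  have hf := ff_measurable φ a
  have hZ := (Z_continuous h).measurable
  have hZ' := (Z'_continuous h).measurable
  have hcZ : Measurable fun y => (starRingEnd ℂ) (Z η y) := Complex.continuous_conj.measurable.comp hZ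
  set J : ℂ → ℝ≥0∞ := fun z => ∫⁻ y : ℝ, (‖ff φ a z - ff φ a (Z η y)‖ₑ ^ 2 / ‖z - Z η y‖ₑ ^ 2
    + ‖ff φ a z - ff φ a ((starRingEnd ℂ) (Z η y))‖ₑ ^ 2 / ‖z - (starRingEnd ℂ) (Z η y)‖ₑ ^ 2)
      * ‖Z' η y‖ₑ with hJ
  have hJm : Measurable J := by
    rw [hJ]
    apply Measurable.lintegral_prod_right'
      (f := fun p : ℂ × ℝ => (‖ff φ a p.1 - ff φ a (Z η p.2)‖ₑ ^ 2 / ‖p.1 - Z η p.2‖ₑ ^ 2
        + ‖ff φ a p.1 - ff φ a ((starRingEnd ℂ) (Z η p.2))‖ₑ ^ 2
          / ‖p.1 - (starRingEnd ℂ) (Z η p.2)‖ₑ ^ 2) * ‖Z' η p.2‖ₑ)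
    fun_prop
  have h1 : ∀ z, ∫⁻ w, ‖ff φ a z - ff φ a w‖ₑ ^ 2 / ‖z - w‖ₑ ^ 2 ∂P.ds = J z := by
    intro z
    rw [hP.lint _ (by fun_prop)]
  simp_rw [h1]
  rw [hP.lint J hJm]
  set C := ENNReal.ofReal ((1 + M) ^ 2) with hC
  set D : ℝ → ℝ → ℝ≥0∞ := fun x y => ‖gg φ a x - gg φ a y‖ₑ ^ 2
      * ENNReal.ofReal ((Real.cosh (x - y) - 1)⁻¹) with hD
  have hDm : Measurable fun p : ℝ × ℝ => D p.1 p.2 := by
    have := (gg_continuous φ a).measurable
    have hc := Real.continuous_cosh.measurable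
    rw [hD]
    fun_prop
  have h2 : ∀ x z, (z = Z η x ∨ z = (starRingEnd ℂ) (Z η x)) →
      J z * ‖Z' η x‖ₑ ≤ 2 * C * ∫⁻ y, D x y := by
    intro x z hz
    rw [hJ]
    simp only
    rw [← lintegral_mul_const _ (by fun_prop), ← lintegral_const_mul _ (by fun_prop)]
    refine lintegral_mono fun y => ?_
    simp only
    rw [enorm_ff_sub h φ a x y hz (Or.inl rfl), enorm_ff_sub h φ a x y hz (Or.inr rfl)]
    have h3 := enn_gag h hg' x y (gg φ a x - gg φ a y) hz (Or.inl rfl) (by rintro rfl; ring)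
    have h4 := enn_gag h hg' x y (gg φ a x - gg φ a y) hz (Or.inr rfl) (by rintro rfl; ring)
    rw [add_mul, add_mul]
    refine (add_le_add h3 h4).trans (le_of_eq ?_)
    rw [hD]
    ring
  calc ∫⁻ x, (J (Z η x) + J ((starRingEnd ℂ) (Z η x))) * ‖Z' η x‖ₑ
      ≤ ∫⁻ x, 4 * C * ∫⁻ y, D x y := by
        refine lintegral_mono fun x => ?_
        simp only
        rw [add_mul]
        refine (add_le_add (h2 x _ (Or.inl rfl)) (h2 x _ (Or.inr rfl))).trans (le_of_eq ?_)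
        ring
    _ = 4 * C * ∫⁻ x, ∫⁻ y, D x y := by
        rw [lintegral_const_mul]
        exact hDm.lintegral_prod_right'
    _ < ∞ := ENNReal.mul_lt_top (ENNReal.mul_lt_top (by norm_num) ENNReal.ofReal_lt_top)
        (double_lt_top φ a)

theorem lintegral_sq_ds (h : IsBump η) {P : CurvPolygon} (hP : IsLens η P) (φ : V) (a : ℝ) :
    ∫⁻ z, ‖ff φ a z‖ₑ ^ 2 ∂P.ds = ∫⁻ x, 2 * (‖gg φ a x‖ₑ ^ 2 * ‖Z' η x‖ₑ) := by
  have hf := ff_measurable φ a
  rw [hP.lint _ (by fun_prop)]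
  refine lintegral_congr fun x => ?_
  rw [ff_Z h, ff_conj h]
  have : ‖((gg φ a x : ℝ) : ℂ)‖ₑ = ‖gg φ a x‖ₑ := by
    rw [← ofReal_norm, Complex.norm_real, ofReal_norm]
  rw [this]
  ring

theorem memLp_ff (h : IsBump η) {P : CurvPolygon} (hP : IsLens η P) (φ : V) (a : ℝ) :
    MemLp (ff φ a) 2 P.ds := by
  refine ⟨(ff_measurable φ a).aestronglyMeasurable, ?_⟩
  rw [eLpNorm_lt_top_iff_lintegral_rpow_enorm_lt_top (by norm_num) (by norm_num)]
  have e : ∀ z, ‖ff φ a z‖ₑ ^ (2 : ℝ≥0∞).toReal = ‖ff φ a z‖ₑ ^ 2 := by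
    intro z
    rw [ENNReal.toReal_ofNat, ENNReal.rpow_ofNat]
  simp_rw [e]
  rw [lintegral_sq_ds h hP]
  obtain ⟨M, hM, hg', -, -⟩ := h.exists_bound
  obtain ⟨B, hB, hBg⟩ := exists_gg_bound φ a
  calc ∫⁻ x, 2 * (‖gg φ a x‖ₑ ^ 2 * ‖Z' η x‖ₑ)
      ≤ ∫⁻ x, ENNReal.ofReal (2 * B * (1 + M) * ((1 + x ^ 2) * (Real.cosh x)⁻¹)) := by
        refine lintegral_mono fun x => ?_
        simp only
        rw [← ofReal_norm, ← ofReal_norm, ← ENNReal.ofReal_pow (norm_nonneg _),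
          ← ENNReal.ofReal_mul (by positivity), ← ENNReal.ofReal_ofNat 2,
          ← ENNReal.ofReal_mul (by positivity)]
        apply ENNReal.ofReal_le_ofReal
        rw [Real.norm_eq_abs, sq_abs]
        have h1 := (hBg x).2
        have h2 := norm_Z'_le' h hg' x
        calc (2 : ℝ) * (gg φ a x ^ 2 * ‖Z' η x‖)
            ≤ 2 * ((B * (1 + x ^ 2)) * ((1 + M) * (Real.cosh x)⁻¹)) := by gcongr
          _ = _ := by ring
    _ < ∞ := by
        have hi := integrable_weight.const_mul (2 * B * (1 + M))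
        rw [← ofReal_integral_eq_lintegral_ofReal hi
          (Filter.Eventually.of_forall fun t => ?_)]
        · exact ENNReal.ofReal_lt_top
        · have := Real.cosh_pos t
          simp only [Pi.zero_apply]
          positivity

theorem ff_ne_zero (h : IsBump η) {P : CurvPolygon} (hP : IsLens η P) (φ : V) (hφ : φ ≠ 0)
    (a : ℝ) : ¬ (ff φ a =ᵐ[P.ds] 0) := by
  intro h0
  apply hφ
  have h1 : ∫⁻ z, ‖ff φ a z‖ₑ ^ 2 ∂P.ds = 0 := by
    rw [lintegral_eq_zero_iff ((ff_measurable φ a).enorm.pow_const 2)]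
    filter_upwards [h0] with z hz
    rw [hz]
    simp
  rw [lintegral_sq_ds h hP] at h1
  have hgm := (gg_continuous φ a).measurable
  have hZm := (Z'_continuous h).measurable
  rw [lintegral_eq_zero_iff (by fun_prop)] at h1
  have h2 : gg φ a =ᵐ[volume] fun _ => 0 := by
    filter_upwards [h1] with x hx
    simp only [Pi.zero_apply, mul_eq_zero, OfNat.ofNat_ne_zero, false_or, enorm_eq_zero,
      pow_eq_zero_iff, ne_eq, not_false_eq_true] at hx
    rcases hx with hx | hx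
    · exact hx
    · exact absurd hx (Z'_ne h x)
  have h3 : gg φ a = fun _ => 0 :=
    Continuous.ae_eq_iff_eq volume (gg_continuous φ a) continuous_const |>.mp h2
  exact phi_eq_zero φ a (fun x => congrFun h3 x)

/-! ### the principal value -/

theorem tendsto_trunc {F : ℝ → ℂ} (hF : Integrable F) {d : ℝ → ℝ} (hd : Measurable d)
    (hd0 : ∀ᵐ y, 0 < d y) :
    Tendsto (fun ε : ℝ => ∫ y in {y | ε < d y}, F y) (𝓝[>] 0) (𝓝 (∫ y, F y)) := by
  have hm : ∀ ε : ℝ, MeasurableSet {y | ε < d y} := fun ε => measurableSet_lt measurable_const hd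
  have h1 : (fun ε : ℝ => ∫ y in {y | ε < d y}, F y)
      = fun ε : ℝ => ∫ y, ({y | ε < d y}).indicator F y := by
    funext ε
    rw [integral_indicator (hm ε)]
  rw [h1]
  refine tendsto_integral_filter_of_dominated_convergence (fun y => ‖F y‖) ?_ ?_ hF.norm ?_
  · exact Filter.Eventually.of_forall fun ε => hF.aestronglyMeasurable.indicator (hm ε)
  · exact Filter.Eventually.of_forall fun ε => Filter.Eventually.of_forall fun y =>
      norm_indicator_le_norm_self _ _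
  · filter_upwards [hd0] with y hy
    have h2 : ∀ᶠ ε : ℝ in 𝓝[>] 0, ε < d y :=
      nhdsWithin_le_nhds (Iio_mem_nhds hy)
    refine tendsto_const_nhds.congr' ?_
    filter_upwards [h2] with ε hε
    rw [indicator_of_mem]
    exact hε

theorem integrable_kernel (φ : V) (a : ℝ) {K : ℝ → ℝ} (hK : Measurable K) {C : ℝ}
    (hC : ∀ y, |K y| ≤ C * (Real.cosh y)⁻¹) : Integrable fun y => K y * gg φ a y := by
  obtain ⟨B, hB, hBg⟩ := exists_gg_bound φ a
  refine (integrable_weight.const_mul (C * B)).mono' ?_ (Filter.Eventually.of_forall fun y => ?_)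
  · exact (hK.mul (gg_continuous φ a).measurable).aestronglyMeasurable
  · rw [norm_mul, Real.norm_eq_abs, Real.norm_eq_abs]
    have h1 := (hBg y).1
    have h2 := hC y
    calc |K y| * |gg φ a y| ≤ (C * (Real.cosh y)⁻¹) * (B * (1 + y ^ 2)) := by
          gcongr
          exact (abs_nonneg _).trans h2
      _ = _ := by ring

theorem norm_sub_pos (h : IsBump η) {x y : ℝ} (hxy : y ≠ x) {z w : ℂ}
    (hz : z = Z η x ∨ z = (starRingEnd ℂ) (Z η x))
    (hw : w = Z η y ∨ w = (starRingEnd ℂ) (Z η y)) : 0 < ‖w - z‖ := by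
  rw [norm_pos_iff, sub_ne_zero]
  rintro rfl
  obtain ⟨E, h1, hE, hE0, -⟩ := exists_rep h x hz
  obtain ⟨F, h2, hF, hF0, -⟩ := exists_rep h y hw
  rw [h1] at h2
  have h3 : (E - F) / ((1 + E) * (1 + F)) = 0 := by
    rw [← sub_eq (ne_zero_of_re hE0) (ne_zero_of_re hF0), h2, sub_self]
  rw [div_eq_zero_iff] at h3
  rcases h3 with h3 | h3
  · have h4 : E = F := sub_eq_zero.mp h3
    rw [h4, hF] at hE
    exact hxy (Real.exp_injective hE)
  · exact mul_ne_zero (ne_zero_of_re hE0) (ne_zero_of_re hF0) h3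

theorem isEigenvalue (h : IsBump η) {P : CurvPolygon} (hP : IsLens η P) (φ : V) (hφ : φ ≠ 0)
    (a μ : ℝ) (hμ : ∀ x : ℝ, ∫ y, kz η x y * (a + ∫ t in (0 : ℝ)..y, φ t)
      = μ * (a + ∫ t in (0 : ℝ)..x, φ t)) : P.IsEigenvalue μ := by
  refine ⟨ff φ a, ⟨memLp_ff h hP φ a, gagliardo_lt_top h hP φ a⟩, ff_ne_zero h hP φ hφ a, ?_⟩
  have hZ := (Z_continuous h).measurable
  have hZ' := (Z'_continuous h).measurable
  have hcZ : Measurable fun y => (starRingEnd ℂ) (Z η y) := Complex.continuous_conj.measurable.comp hZ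
  have key : ∀ x : ℝ, ∀ z, (z = Z η x ∨ z = (starRingEnd ℂ) (Z η x)) →
      Tendsto (fun ε => P.npTrunc ε (ff φ a) z) (𝓝[>] 0) (𝓝 (μ * ff φ a z)) := by
    intro x z hz
    obtain ⟨C, hC0, hC⟩ := kernel_le h x
    set K1 : ℝ → ℝ := fun y => -(Z' η y / (Z η y - z)).im with hK1
    set K2 : ℝ → ℝ := fun y => -(Z' η y / (Z η y - (starRingEnd ℂ) z)).im with hK2
    have hK1m : Measurable K1 := by
      rw [hK1]
      exact (Complex.measurable_im.comp (hZ'.div (hZ.sub_const z))).neg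
    have hK2m : Measurable K2 := by
      rw [hK2]
      exact (Complex.measurable_im.comp (hZ'.div (hZ.sub_const _))).neg
    have hK1b : ∀ y, |K1 y| ≤ C * (Real.cosh y)⁻¹ := by
      intro y
      rw [hK1]
      simp only [abs_neg]
      rcases hz with rfl | rfl
      · exact (hC y).1
      · exact (hC y).2
    have hK2b : ∀ y, |K2 y| ≤ C * (Real.cosh y)⁻¹ := by
      intro y
      rw [hK2]
      simp only [abs_neg]
      rcases hz with rfl | rfl
      · exact (hC y).2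
      · rw [Complex.conj_conj]
        exact (hC y).1
    have hsum : ∀ y, (1 / (2 * Real.pi)) * (K1 y + K2 y) = kz η x y := by
      intro y
      rw [hK1, hK2]
      unfold kz
      simp only
      rcases hz with rfl | rfl
      · ring
      · rw [Complex.conj_conj]; ring
    have hi1 := integrable_kernel φ a hK1m hK1b
    have hi2 := integrable_kernel φ a hK2m hK2b
    have hi1c : Integrable fun y => ((K1 y * gg φ a y : ℝ) : ℂ) := hi1.ofReal
    have hi2c : Integrable fun y => ((K2 y * gg φ a y : ℝ) : ℂ) := hi2.ofReal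
    have hx0 : ∀ᵐ y : ℝ, y ≠ x := by
      rw [ae_iff]
      simp
    have ht1 := tendsto_trunc hi1c (d := fun y => ‖Z η y - z‖) (by fun_prop)
      (by filter_upwards [hx0] with y hy using norm_sub_pos h hy hz (Or.inl rfl))
    have ht2 := tendsto_trunc hi2c (d := fun y => ‖(starRingEnd ℂ) (Z η y) - z‖)
      (by fun_prop)
      (by filter_upwards [hx0] with y hy using norm_sub_pos h hy hz (Or.inr rfl))
    have ht := (ht1.add ht2).const_mul ((1 / (2 * Real.pi) : ℝ) : ℂ)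
    have hlim : ((1 / (2 * Real.pi) : ℝ) : ℂ) * ((∫ y, ((K1 y * gg φ a y : ℝ) : ℂ))
        + ∫ y, ((K2 y * gg φ a y : ℝ) : ℂ)) = μ * ff φ a z := by
      rw [integral_complex_ofReal, integral_complex_ofReal, ← Complex.ofReal_add, ← Complex.ofReal_mul,
        ff_cases h φ a x hz, ← Complex.ofReal_mul, Complex.ofReal_inj, ← integral_add hi1 hi2,
        ← integral_const_mul]
      have := hμ x
      unfold gg
      rw [← this]
      congr 1
      funext y
      rw [← hsum y]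
      ring
    rw [← hlim]
    refine ht.congr' ?_
    filter_upwards [self_mem_nhdsWithin] with ε hε
    rw [hP.trunc ε hε]
    congr 2
    · refine setIntegral_congr_fun ?_ fun y _ => ?_
      · exact measurableSet_lt measurable_const (by fun_prop)
      · rw [ff_Z h, hK1]
        push_cast
        ring
    · refine setIntegral_congr_fun ?_ fun y _ => ?_
      · exact measurableSet_lt measurable_const (by fun_prop)
      · rw [ff_conj h, hK2]
        push_cast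
        ring
  exact hP.ae _ fun x => ⟨key x _ (Or.inl rfl), key x _ (Or.inr rfl)⟩

end Pool.Agent.Helper16.NP
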