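import Pool.Agent.Helper59.NP.Iface
import Pool.Agent.Helper59.NP.KerInst

/-!
Elementary bounds for the kernels of the lens (part of Task C of MP_f4a5f6_an).
-/

set_option autoImplicit false
open Set MeasureTheory Filter Topology
open scoped ENNReal RealInnerProductSpace
open Pool.Agent.Helper59.NP

namespace Pool.Agent.Helper16.NP

variable {η : ℝ → ℝ}

theorem cosh_ge (x : ℝ) : 1 + x ^ 2 / 2 + x ^ 4 / 32 ≤ Real.cosh x := by
  have h := cosh_sub_one_ge (x / 2)
  have h2 := Real.cosh_two_mul (x / 2)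
  have h3 := Real.cosh_sq (x / 2)
  rw [show 2 * (x / 2) = x by ring] at h2
  have h4 : Real.cosh x = 2 * Real.cosh (x / 2) ^ 2 - 1 := by linarith
  have h5 : 1 + x ^ 2 / 8 ≤ Real.cosh (x / 2) := by nlinarith
  rw [h4]
  have h6 : (1 + x ^ 2 / 8) ^ 2 ≤ Real.cosh (x / 2) ^ 2 := by gcongr
  nlinarith

theorem weight_le (x : ℝ) : (1 + x ^ 2) * (Real.cosh x)⁻¹ ≤ 32 * (1 + x ^ 2)⁻¹ := by
  have h := cosh_ge x
  have hc := Real.cosh_pos x
  rw [← div_eq_mul_inv, ← div_eq_mul_inv, div_le_div_iff₀ hc (by positivity)]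
  nlinarith [sq_nonneg x, sq_nonneg (x ^ 2)]

theorem integrable_weight : Integrable (fun t : ℝ => (1 + t ^ 2) * (Real.cosh t)⁻¹) := by
  refine (integrable_inv_one_add_sq.const_mul 32).mono' ?_ (Filter.Eventually.of_forall fun t => ?_)
  · exact (Continuous.mul (by fun_prop) (Real.continuous_cosh.inv₀
      (fun x => (Real.cosh_pos x).ne'))).aestronglyMeasurable
  · rw [Real.norm_eq_abs, abs_of_pos (mul_pos (by positivity) (inv_pos.mpr (Real.cosh_pos t)))]
    exact weight_le t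

theorem sq_div_le (t : ℝ) : t ^ 2 / (Real.cosh t - 1) ≤ 32 * (1 + t ^ 2)⁻¹ := by
  rcases eq_or_ne t 0 with rfl | ht
  · simp
  have h := cosh_ge t
  have h2 : 0 < t ^ 2 := by positivity
  have hc : 0 < Real.cosh t - 1 := by nlinarith [sq_nonneg (t ^ 2)]
  rw [← div_eq_mul_inv, div_le_div_iff₀ hc (by positivity)]
  nlinarith [sq_nonneg (t ^ 2)]

theorem lintegral_sq_div_lt_top :
    ∫⁻ t : ℝ, ENNReal.ofReal (t ^ 2 / (Real.cosh t - 1)) < ∞ := by
  have h1 : Integrable (fun t : ℝ => 32 * (1 + t ^ 2)⁻¹) := integrable_inv_one_add_sq.const_mul 32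
  calc ∫⁻ t : ℝ, ENNReal.ofReal (t ^ 2 / (Real.cosh t - 1))
      ≤ ∫⁻ t : ℝ, ENNReal.ofReal (32 * (1 + t ^ 2)⁻¹) :=
        lintegral_mono fun t => ENNReal.ofReal_le_ofReal (sq_div_le t)
    _ < ∞ := by
        rw [← ofReal_integral_eq_lintegral_ofReal h1
          (Filter.Eventually.of_forall fun t => by positivity)]
        exact ENNReal.ofReal_lt_top

theorem exp_min_le {t a : ℝ} (h1 : a ≤ Real.exp t) (h2 : a ≤ Real.exp (-t)) :
    a ≤ (Real.cosh t)⁻¹ := by
  have hc := Real.cosh_pos t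
  rcases le_total 0 t with h | h
  · refine h2.trans ?_
    rw [Real.exp_neg]
    gcongr
    rw [Real.cosh_eq]
    have : Real.exp (-t) ≤ Real.exp t := Real.exp_le_exp.mpr (by linarith)
    linarith
  · refine h1.trans ?_
    rw [← inv_inv (Real.exp t), ← Real.exp_neg]
    gcongr
    rw [Real.cosh_eq]
    have : Real.exp t ≤ Real.exp (-t) := Real.exp_le_exp.mpr (by linarith)
    linarith

/-! ### complex numbers with nonnegative real part -/

theorem one_le_norm {E : ℂ} (hE : 0 ≤ E.re) : 1 ≤ ‖1 + E‖ := by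
  have h := Complex.abs_re_le_norm (1 + E)
  rw [Complex.add_re, Complex.one_re, abs_of_nonneg (by linarith)] at h
  linarith

theorem norm_le_norm {E : ℂ} (hE : 0 ≤ E.re) : ‖E‖ ≤ ‖1 + E‖ := by
  have h : ‖E‖ ^ 2 ≤ ‖1 + E‖ ^ 2 := by
    rw [Complex.sq_norm, Complex.sq_norm, Complex.normSq_apply, Complex.normSq_apply]
    simp only [Complex.add_re, Complex.add_im, Complex.one_re, Complex.one_im]
    nlinarith
  exact le_of_sq_le_sq h (norm_nonneg _)

theorem ne_zero_of_re {E : ℂ} (hE : 0 ≤ E.re) : 1 + E ≠ 0 := by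
  intro h
  have := one_le_norm hE
  rw [h, norm_zero] at this
  linarith

theorem sub_eq {E F : ℂ} (hE : 1 + E ≠ 0) (hF : 1 + F ≠ 0) :
    E / (1 + E) - F / (1 + F) = (E - F) / ((1 + E) * (1 + F)) := by
  field_simp
  ring

/-- the exponential `e^{u(x)}` -/
noncomputable def EE (η : ℝ → ℝ) (x : ℝ) : ℂ := Complex.exp (uu η x)

theorem Z_eq (η : ℝ → ℝ) (x : ℝ) : Z η x = EE η x / (1 + EE η x) := rfl

theorem Z'_eq (η : ℝ → ℝ) (x : ℝ) :
    Z' η x = (1 + (gam' η x : ℂ) * Complex.I) * EE η x / (1 + EE η x) ^ 2 := rfl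

theorem EE_re (η : ℝ → ℝ) (x : ℝ) : (EE η x).re = Real.exp x * Real.cos (gam η x) := by
  unfold EE uu
  rw [Complex.exp_re]
  simp

theorem EE_im (η : ℝ → ℝ) (x : ℝ) : (EE η x).im = Real.exp x * Real.sin (gam η x) := by
  unfold EE uu
  rw [Complex.exp_im]
  simp

theorem norm_EE (η : ℝ → ℝ) (x : ℝ) : ‖EE η x‖ = Real.exp x := by
  unfold EE uu
  rw [Complex.norm_exp]
  simp

theorem EE_ne (η : ℝ → ℝ) (x : ℝ) : EE η x ≠ 0 := Complex.exp_ne_zero _

theorem cos_gam_nonneg (h : IsBump η) (x : ℝ) : 0 ≤ Real.cos (gam η x) := by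
  apply Real.cos_nonneg_of_neg_pi_div_two_le_of_le
  · have := h.gam_ge' x; have := Real.pi_pos; linarith
  · have := h.gam_le x; have := Real.pi_pos; linarith

theorem sin_gam_ge (h : IsBump η) (x : ℝ) : 1 / 2 ≤ Real.sin (gam η x) := by
  rw [← Real.sin_pi_div_six]
  apply Real.sin_le_sin_of_le_of_le_pi_div_two
  · have := Real.pi_pos; linarith
  · have := h.gam_le x; have := Real.pi_pos; linarith
  · have := h.gam_ge x; have := Real.pi_gt_d2; linarith

theorem EE_re_nonneg (h : IsBump η) (x : ℝ) : 0 ≤ (EE η x).re := by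
  rw [EE_re]
  exact mul_nonneg (Real.exp_pos x).le (cos_gam_nonneg h x)

theorem one_add_EE_ne (h : IsBump η) (x : ℝ) : 1 + EE η x ≠ 0 := ne_zero_of_re (EE_re_nonneg h x)

theorem norm_one_add_gam'_le {M : ℝ} (hM : ∀ x, |gam' η x| ≤ M) (x : ℝ) :
    ‖1 + (gam' η x : ℂ) * Complex.I‖ ≤ 1 + M := by
  refine (norm_add_le _ _).trans ?_
  rw [norm_one, norm_mul, Complex.norm_I, mul_one, Complex.norm_real, Real.norm_eq_abs]
  linarith [hM x]

theorem norm_Z'_le (η : ℝ → ℝ) {M : ℝ} (hM : ∀ x, |gam' η x| ≤ M) (x : ℝ) :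
    ‖Z' η x‖ ≤ (1 + M) * Real.exp x / ‖1 + EE η x‖ ^ 2 := by
  rw [Z'_eq, norm_div, norm_mul, norm_pow, norm_EE]
  gcongr
  exact norm_one_add_gam'_le hM x

/-- a point of the curve in the form `F / (1 + F)` -/
theorem exists_rep (h : IsBump η) (x : ℝ) {z : ℂ}
    (hz : z = Z η x ∨ z = (starRingEnd ℂ) (Z η x)) :
    ∃ F : ℂ, z = F / (1 + F) ∧ ‖F‖ = Real.exp x ∧ 0 ≤ F.re ∧ ‖1 + F‖ = ‖1 + EE η x‖ := by
  rcases hz with rfl | rfl
  · exact ⟨EE η x, rfl, norm_EE η x, EE_re_nonneg h x, rfl⟩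
  · refine ⟨(starRingEnd ℂ) (EE η x), ?_, ?_, ?_, ?_⟩
    · rw [Z_eq, map_div₀, map_add, map_one]
    · rw [Complex.norm_conj, norm_EE]
    · rw [Complex.conj_re]; exact EE_re_nonneg h x
    · have : 1 + (starRingEnd ℂ) (EE η x) = (starRingEnd ℂ) (1 + EE η x) := by
        rw [map_add, map_one]
      rw [this, Complex.norm_conj]

theorem exp_sub_sq (x y : ℝ) :
    (Real.exp x - Real.exp y) ^ 2 = Real.exp x * Real.exp y * (2 * (Real.cosh (x - y) - 1)) := by
  rw [Real.cosh_eq, neg_sub, Real.exp_sub, Real.exp_sub]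
  have := (Real.exp_pos x).ne'
  have := (Real.exp_pos y).ne'
  field_simp
  ring

theorem gag_bound (h : IsBump η) {M : ℝ} (hM : ∀ x, |gam' η x| ≤ M) (x y : ℝ) {z w : ℂ}
    (hz : z = Z η x ∨ z = (starRingEnd ℂ) (Z η x))
    (hw : w = Z η y ∨ w = (starRingEnd ℂ) (Z η y)) :
    ‖Z' η x‖ * ‖Z' η y‖ * (2 * (Real.cosh (x - y) - 1)) ≤ (1 + M) ^ 2 * ‖z - w‖ ^ 2 := by
  obtain ⟨E, rfl, hE, hE0, hE1⟩ := exists_rep h x hz
  obtain ⟨F, rfl, hF, hF0, hF1⟩ := exists_rep h y hw
  have hM0 : 0 ≤ M := (abs_nonneg _).trans (hM 0)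
  have hx := norm_Z'_le η hM x
  have hy := norm_Z'_le η hM y
  have ha : 0 < ‖1 + EE η x‖ := lt_of_lt_of_le one_pos (one_le_norm (EE_re_nonneg h x))
  have hb : 0 < ‖1 + EE η y‖ := lt_of_lt_of_le one_pos (one_le_norm (EE_re_nonneg h y))
  have hch : 0 ≤ 2 * (Real.cosh (x - y) - 1) := by linarith [Real.one_le_cosh (x - y)]
  rw [sub_eq (ne_zero_of_re hE0) (ne_zero_of_re hF0), norm_div, norm_mul, hE1, hF1]
  have h1 : (Real.exp x - Real.exp y) ^ 2 ≤ ‖E - F‖ ^ 2 := by
    rw [← hE, ← hF, ← sq_abs]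
    have := abs_norm_sub_norm_le E F
    gcongr
  calc ‖Z' η x‖ * ‖Z' η y‖ * (2 * (Real.cosh (x - y) - 1))
      ≤ ((1 + M) * Real.exp x / ‖1 + EE η x‖ ^ 2) * ((1 + M) * Real.exp y / ‖1 + EE η y‖ ^ 2)
        * (2 * (Real.cosh (x - y) - 1)) := by gcongr
    _ = (1 + M) ^ 2 * ((Real.exp x - Real.exp y) ^ 2 / (‖1 + EE η x‖ * ‖1 + EE η y‖) ^ 2) := by
        rw [exp_sub_sq]
        field_simp
    _ ≤ (1 + M) ^ 2 * (‖E - F‖ ^ 2 / (‖1 + EE η x‖ * ‖1 + EE η y‖) ^ 2) := by gcongr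
    _ = _ := by rw [div_pow]

theorem norm_Z'_le' (h : IsBump η) {M : ℝ} (hM : ∀ x, |gam' η x| ≤ M) (x : ℝ) :
    ‖Z' η x‖ ≤ (1 + M) * (Real.cosh x)⁻¹ := by
  have hM0 : 0 ≤ M := (abs_nonneg _).trans (hM 0)
  have h1 := norm_Z'_le η hM x
  have h2 := one_le_norm (EE_re_nonneg h x)
  have h3 := norm_le_norm (EE_re_nonneg h x)
  rw [norm_EE] at h3
  refine h1.trans ?_
  rw [mul_div_assoc]
  gcongr
  have hx := Real.exp_pos x
  apply exp_min_le
  · rw [div_le_iff₀ (by positivity)]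
    nlinarith [one_le_pow₀ (n := 2) h2]
  · rw [div_le_iff₀ (by positivity), Real.exp_neg, ← div_eq_inv_mul, le_div_iff₀ hx, ← sq]
    gcongr

/-! ### bounds for the singular kernel -/

theorem kernel_eq (h : IsBump η) (y : ℝ) {F : ℂ} (hF0 : 0 ≤ F.re) (hne : EE η y - F ≠ 0) :
    Z' η y / (Z η y - F / (1 + F))
      = (1 + (gam' η y : ℂ) * Complex.I) * (EE η y * (1 + F) / ((1 + EE η y) * (EE η y - F))) := by
  have h1 := one_add_EE_ne h y
  have h2 := ne_zero_of_re hF0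
  rw [Z_eq, sub_eq h1 h2, Z'_eq]
  field_simp

theorem norm_kernel_le (h : IsBump η) {M : ℝ} (hM : ∀ x, |gam' η x| ≤ M) (x y : ℝ)
    {F : ℂ} (hF : ‖F‖ = Real.exp x) (hF0 : 0 ≤ F.re) {c : ℝ} (hc : 0 < c)
    (h1 : c * Real.exp x ≤ ‖EE η y - F‖) (h2 : c * Real.exp y ≤ ‖EE η y - F‖) :
    ‖Z' η y / (Z η y - F / (1 + F))‖
      ≤ (1 + M) * (1 + Real.exp x) * ((1 + Real.exp (-x)) / c) * (Real.cosh y)⁻¹ := by
  have hM0 : 0 ≤ M := (abs_nonneg _).trans (hM 0)
  have hx := Real.exp_pos x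
  have hy := Real.exp_pos y
  have hx' := Real.exp_pos (-x)
  have hd : 0 < ‖EE η y - F‖ := lt_of_lt_of_le (by positivity) h2
  have h3 := one_le_norm (EE_re_nonneg h y)
  have h4 := norm_le_norm (EE_re_nonneg h y)
  rw [norm_EE] at h4
  rw [kernel_eq h y hF0 (norm_pos_iff.mp hd), norm_mul, norm_div, norm_mul, norm_mul, norm_EE]
  have hF1 : ‖1 + F‖ ≤ 1 + Real.exp x := by
    refine (norm_add_le _ _).trans ?_
    rw [norm_one, hF]
  have key : c / (1 + Real.exp (-x)) * (Real.exp y / (‖1 + EE η y‖ * ‖EE η y - F‖))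
      ≤ (Real.cosh y)⁻¹ := by
    apply exp_min_le
    · rw [div_mul_div_comm, div_le_iff₀ (by positivity)]
      have e : c ≤ ‖EE η y - F‖ * Real.exp (-x) := by
        calc c = (c * Real.exp x) * Real.exp (-x) := by
              rw [mul_assoc, ← Real.exp_add]; simp
          _ ≤ _ := by gcongr
      calc c * Real.exp y ≤ (‖EE η y - F‖ * Real.exp (-x)) * Real.exp y := by gcongr
        _ = Real.exp y * (Real.exp (-x) * (1 * ‖EE η y - F‖)) := by ring
        _ ≤ Real.exp y * ((1 + Real.exp (-x)) * (‖1 + EE η y‖ * ‖EE η y - F‖)) := by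
            gcongr
            linarith
    · rw [div_mul_div_comm, div_le_iff₀ (by positivity)]
      calc c * Real.exp y ≤ ‖EE η y - F‖ := h2
        _ = Real.exp (-y) * (1 * (Real.exp y * ‖EE η y - F‖)) := by
            rw [one_mul, ← mul_assoc, ← Real.exp_add]; simp
        _ ≤ Real.exp (-y) * ((1 + Real.exp (-x)) * (‖1 + EE η y‖ * ‖EE η y - F‖)) := by
            gcongr
            linarith
  calc ‖1 + (gam' η y : ℂ) * Complex.I‖
        * (Real.exp y * ‖1 + F‖ / (‖1 + EE η y‖ * ‖EE η y - F‖))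
      ≤ (1 + M) * (Real.exp y * (1 + Real.exp x) / (‖1 + EE η y‖ * ‖EE η y - F‖)) := by
        gcongr
        exact norm_one_add_gam'_le hM y
    _ = (1 + M) * (1 + Real.exp x) * ((1 + Real.exp (-x)) / c)
        * (c / (1 + Real.exp (-x)) * (Real.exp y / (‖1 + EE η y‖ * ‖EE η y - F‖))) := by
        field_simp
    _ ≤ _ := by gcongr

/-- bound for the kernel with the conjugate point -/
theorem kernel_conj_le (h : IsBump η) {M : ℝ} (hM : ∀ x, |gam' η x| ≤ M) (x y : ℝ) :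
    |(Z' η y / (Z η y - (starRingEnd ℂ) (Z η x))).im|
      ≤ (1 + M) * (1 + Real.exp x) * ((1 + Real.exp (-x)) / (1 / 2)) * (Real.cosh y)⁻¹ := by
  have e : (starRingEnd ℂ) (Z η x)
      = (starRingEnd ℂ) (EE η x) / (1 + (starRingEnd ℂ) (EE η x)) := by
    rw [Z_eq, map_div₀, map_add, map_one]
  refine (Complex.abs_im_le_norm _).trans ?_
  rw [e]
  have him : 1 / 2 * Real.exp x + 1 / 2 * Real.exp y ≤ ‖EE η y - (starRingEnd ℂ) (EE η x)‖ := by
    refine le_trans ?_ (Complex.abs_im_le_norm _)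
    rw [Complex.sub_im, Complex.conj_im, EE_im, EE_im, sub_neg_eq_add]
    refine le_trans ?_ (le_abs_self _)
    have h1 := sin_gam_ge h x
    have h2 := sin_gam_ge h y
    have hx := Real.exp_pos x
    have hy := Real.exp_pos y
    nlinarith
  have hx := Real.exp_pos x
  have hy := Real.exp_pos y
  apply norm_kernel_le h hM x y
  · rw [Complex.norm_conj, norm_EE]
  · rw [Complex.conj_re]; exact EE_re_nonneg h x
  · norm_num
  · linarith
  · linarith

theorem exp_sub_ge {x y : ℝ} (hxy : 1 ≤ |x - y|) :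
    1 / 2 * Real.exp x ≤ |Real.exp y - Real.exp x| ∧
      1 / 2 * Real.exp y ≤ |Real.exp y - Real.exp x| := by
  have hx := Real.exp_pos x
  have hy := Real.exp_pos y
  have h2 : (2 : ℝ) ≤ Real.exp 1 := by
    have := Real.add_one_le_exp (1 : ℝ); linarith
  rcases le_abs.mp hxy with h | h
  · have h1 : Real.exp 1 * Real.exp y ≤ Real.exp x := by
      rw [← Real.exp_add]; exact Real.exp_le_exp.mpr (by linarith)
    have h3 : 2 * Real.exp y ≤ Real.exp x := by nlinarith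
    rw [abs_sub_comm, abs_of_nonneg (by linarith)]
    constructor <;> linarith
  · have h1 : Real.exp 1 * Real.exp x ≤ Real.exp y := by
      rw [← Real.exp_add]; exact Real.exp_le_exp.mpr (by linarith)
    have h3 : 2 * Real.exp x ≤ Real.exp y := by nlinarith
    rw [abs_of_nonneg (by linarith)]
    constructor <;> linarith

theorem kernel_far_le (h : IsBump η) {M : ℝ} (hM : ∀ x, |gam' η x| ≤ M) {x y : ℝ}
    (hxy : 1 ≤ |x - y|) :
    |(Z' η y / (Z η y - Z η x)).im|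
      ≤ (1 + M) * (1 + Real.exp x) * ((1 + Real.exp (-x)) / (1 / 2)) * (Real.cosh y)⁻¹ := by
  refine (Complex.abs_im_le_norm _).trans ?_
  rw [Z_eq η x]
  have h1 : |Real.exp y - Real.exp x| ≤ ‖EE η y - EE η x‖ := by
    rw [← norm_EE η x, ← norm_EE η y]
    exact abs_norm_sub_norm_le _ _
  obtain ⟨h2, h3⟩ := exp_sub_ge hxy
  exact norm_kernel_le h hM x y (norm_EE η x) (EE_re_nonneg h x) (by norm_num) (h2.trans h1)
    (h3.trans h1)

theorem half_coth {X θ : ℝ} (hX : X ≠ 0) :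
    Complex.exp ((X : ℂ) + (θ : ℂ) * Complex.I) / (Complex.exp ((X : ℂ) + (θ : ℂ) * Complex.I) - 1)
      = ((1 / 2 + pp X θ : ℝ) : ℂ) - (qq X θ : ℂ) * Complex.I := by
  have hN := N_pos_of_ne hX θ
  have hr := Real.exp_pos X
  set G := Complex.exp ((X : ℂ) + (θ : ℂ) * Complex.I) with hG
  have hre : G.re = Real.exp X * Real.cos θ := by rw [hG, Complex.exp_re]; simp
  have him : G.im = Real.exp X * Real.sin θ := by rw [hG, Complex.exp_im]; simp
  have hG1 : G - 1 ≠ 0 := by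
    intro h0
    have h1 : ‖G‖ = 1 := by
      rw [sub_eq_zero.mp h0, norm_one]
    rw [hG, Complex.norm_exp] at h1
    simp at h1
    exact hX h1
  have hNe : N X θ = (Real.exp X + (Real.exp X)⁻¹) / 2 - Real.cos θ := by
    unfold N; rw [Real.cosh_eq, Real.exp_neg]
  have hNe2 : N X θ * (2 * Real.exp X)
      = Real.exp X ^ 2 + 1 - 2 * Real.exp X * Real.cos θ := by
    rw [hNe]; field_simp
  have hpp : pp X θ = (Real.exp X ^ 2 - 1) / (2 * (N X θ * (2 * Real.exp X))) := by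
    unfold pp
    rw [Real.sinh_eq, Real.exp_neg]
    field_simp
  have hqq : qq X θ = Real.exp X * Real.sin θ / (N X θ * (2 * Real.exp X)) := by
    unfold qq
    field_simp
  have hD : 0 < N X θ * (2 * Real.exp X) := by positivity
  rw [hpp, hqq]
  rw [hNe2] at hD ⊢
  set r := Real.exp X
  set c := Real.cos θ
  set s := Real.sin θ
  have hsc : s ^ 2 + c ^ 2 = 1 := Real.sin_sq_add_cos_sq θ
  obtain ⟨D, hDD⟩ : ∃ D, D = r ^ 2 + 1 - 2 * r * c := ⟨_, rfl⟩
  rw [← hDD] at hD ⊢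
  have hD' := hD.ne'
  rw [div_eq_iff hG1]
  apply Complex.ext
  · simp only [Complex.mul_re, Complex.sub_re, Complex.sub_im, Complex.ofReal_re, Complex.ofReal_im,
      Complex.mul_im, Complex.I_re, Complex.I_im, Complex.one_re, Complex.one_im, hre, him]
    field_simp
    linear_combination (-2 * r ^ 2) * hsc + (r * c + 1) * hDD
  · simp only [Complex.mul_re, Complex.sub_re, Complex.sub_im, Complex.ofReal_re, Complex.ofReal_im,
      Complex.mul_im, Complex.I_re, Complex.I_im, Complex.one_re, Complex.one_im, hre, him]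
    field_simp
    linear_combination (r * s) * hDD

theorem diag_bound (h : IsBump η) {M : ℝ} (hM : 0 < M) (hg' : ∀ x, |gam' η x| ≤ M)
    (hlip : ∀ x y, |gam η x - gam η y| ≤ M * |x - y|)
    (hq : ∀ x y, |gam η x - gam η y - gam' η x * (x - y)| ≤ M * (x - y) ^ 2) {x y : ℝ}
    (hX1 : |x - y| ≤ 1) (hX0 : x - y ≠ 0) :
    |qq (x - y) (gam η x - gam η y) - gam' η x * pp (x - y) (gam η x - gam η y)|
      ≤ M ^ 2 + 2 * M := by
  set X := x - y with hX
  set δ := gam η x - gam η y with hδ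
  have hgx := hg' x
  have hNpos := N_pos_of_ne hX0 δ
  have e : qq X δ - gam' η x * pp X δ
      = (Real.sin δ - gam' η x * Real.sinh X) / (2 * N X δ) := by
    unfold qq pp; ring
  rw [e, abs_div, abs_of_pos (a := 2 * N X δ) (by positivity), div_le_iff₀ (by positivity)]
  have h1 : |Real.sin δ - δ| ≤ δ ^ 2 := abs_sin_sub_le ((h.abs_diff_le x y).trans (by norm_num))
  have h2 : |Real.sinh X - X| ≤ X ^ 2 := abs_sinh_sub_le hX1
  have h3 := hq x y
  have h4 : δ ^ 2 ≤ M ^ 2 * X ^ 2 := by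
    rw [← sq_abs δ, ← sq_abs X, ← mul_pow]
    have := hlip x y
    gcongr
  have h5 : |Real.sin δ - gam' η x * Real.sinh X| ≤ (M ^ 2 + 2 * M) * X ^ 2 := by
    have e2 : Real.sin δ - gam' η x * Real.sinh X
        = (Real.sin δ - δ) + (gam η x - gam η y - gam' η x * (x - y))
          - gam' η x * (Real.sinh X - X) := by rw [hδ, hX]; ring
    rw [e2]
    calc |(Real.sin δ - δ) + (gam η x - gam η y - gam' η x * (x - y))
          - gam' η x * (Real.sinh X - X)|
        ≤ |Real.sin δ - δ| + |gam η x - gam η y - gam' η x * (x - y)|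
          + |gam' η x * (Real.sinh X - X)| := by
          refine (abs_sub _ _).trans ?_
          gcongr
          exact abs_add_le _ _
      _ ≤ M ^ 2 * X ^ 2 + M * X ^ 2 + M * X ^ 2 := by
          rw [abs_mul]
          gcongr
          exact h1.trans h4
      _ = _ := by ring
  have h6 : X ^ 2 ≤ 2 * N X δ := by
    have := cosh_sub_one_ge X
    have := N_ge X δ
    linarith
  have : 0 ≤ M ^ 2 + 2 * M := by positivity
  nlinarith

theorem kernel_near_le (h : IsBump η) {M : ℝ} (hM : 0 < M) (hg' : ∀ x, |gam' η x| ≤ M)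
    (hlip : ∀ x y, |gam η x - gam η y| ≤ M * |x - y|)
    (hq : ∀ x y, |gam η x - gam η y - gam' η x * (x - y)| ≤ M * (x - y) ^ 2) {x y : ℝ}
    (hX1 : |x - y| ≤ 1) :
    |(Z' η y / (Z η y - Z η x)).im| ≤ M ^ 2 + 2 * M + (2 * M + 1) := by
  rcases eq_or_ne (y - x) 0 with h0 | h0
  · have : y = x := by linarith
    rw [this]
    simp
    positivity
  set G := Complex.exp (((y - x : ℝ) : ℂ) + ((gam η y - gam η x : ℝ) : ℂ) * Complex.I) with hG
  have hG2 : EE η y = G * EE η x := by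
    unfold EE uu
    rw [hG, ← Complex.exp_add]
    congr 1
    push_cast
    ring
  have hG1 : G - 1 ≠ 0 := by
    intro hh
    have h1 : ‖G‖ = 1 := by
      rw [sub_eq_zero.mp hh, norm_one]
    rw [hG, Complex.norm_exp] at h1
    simp at h1
    exact h0 (by linarith)
  have hEx := EE_ne η x
  have hne : EE η y - EE η x ≠ 0 := by
    rw [hG2, show G * EE η x - EE η x = (G - 1) * EE η x by ring]
    exact mul_ne_zero hG1 hEx
  have hc := half_coth (θ := gam η y - gam η x) h0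
  rw [← hG] at hc
  have h1y := one_add_EE_ne h y
  have e1 : EE η y * (1 + EE η x) / ((1 + EE η y) * (EE η y - EE η x))
      = G / (G - 1) - Z η y := by
    have e2 : G / (G - 1) = EE η y / (EE η y - EE η x) := by
      rw [div_eq_div_iff hG1 hne, hG2]; ring
    rw [e2, Z_eq, div_sub_div _ _ hne h1y]
    congr 1
    · ring
    · ring
  have e3 : (Z' η y / (Z η y - Z η x)).im
      = -(qq (y - x) (gam η y - gam η x) - gam' η y * pp (y - x) (gam η y - gam η x))
        + (gam' η y * (1 / 2 - (Z η y).re) - (Z η y).im) := by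
    rw [Z_eq η x, kernel_eq h y (EE_re_nonneg h x) hne, e1, hc]
    simp only [Complex.mul_re, Complex.sub_re, Complex.sub_im, Complex.ofReal_re, Complex.ofReal_im,
      Complex.mul_im, Complex.I_re, Complex.I_im, Complex.one_re, Complex.one_im, Complex.add_re,
      Complex.add_im]
    ring
  have hZ : ‖Z η y‖ ≤ 1 := by
    rw [Z_eq, norm_div]
    exact div_le_one_of_le₀ (norm_le_norm (EE_re_nonneg h y)) (norm_nonneg _)
  have h5 := diag_bound h hM hg' hlip hq (x := y) (y := x) (by rw [abs_sub_comm]; exact hX1) h0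
  rw [e3]
  refine (abs_add_le _ _).trans ?_
  rw [abs_neg]
  refine add_le_add h5 ?_
  refine (abs_sub _ _).trans ?_
  refine add_le_add ?_ ((Complex.abs_im_le_norm _).trans hZ)
  rw [abs_mul, mul_comm]
  refine mul_le_mul ?_ (hg' y) (abs_nonneg _) (by norm_num)
  have := (Complex.abs_re_le_norm (Z η y)).trans hZ
  rw [abs_le] at this ⊢
  constructor <;> linarith

theorem kernel_le (h : IsBump η) (x : ℝ) : ∃ C : ℝ, 0 ≤ C ∧ ∀ y,
    |(Z' η y / (Z η y - Z η x)).im| ≤ C * (Real.cosh y)⁻¹ ∧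
    |(Z' η y / (Z η y - (starRingEnd ℂ) (Z η x))).im| ≤ C * (Real.cosh y)⁻¹ := by
  obtain ⟨M, hM, hg', hlip, hq⟩ := h.exists_bound
  set C1 := (1 + M) * (1 + Real.exp x) * ((1 + Real.exp (-x)) / (1 / 2)) with hC1
  set C2 := (M ^ 2 + 2 * M + (2 * M + 1)) * Real.cosh (|x| + 1) with hC2
  have h1 : 0 ≤ C1 := by positivity
  have h2 : 0 ≤ C2 := by
    have := Real.cosh_pos (|x| + 1)
    positivity
  refine ⟨C1 + C2, by positivity, fun y => ⟨?_, ?_⟩⟩
  · have hch := inv_pos.mpr (Real.cosh_pos y)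
    rcases le_total 1 |x - y| with hxy | hxy
    · refine (kernel_far_le h hg' hxy).trans ?_
      gcongr
      linarith
    · refine (kernel_near_le h hM hg' hlip hq hxy).trans ?_
      have h3 : Real.cosh y ≤ Real.cosh (|x| + 1) := by
        rw [Real.cosh_le_cosh]
        rw [abs_of_nonneg (a := |x| + 1) (by positivity)]
        have := abs_sub_abs_le_abs_sub y x
        rw [abs_sub_comm] at hxy
        linarith
      calc M ^ 2 + 2 * M + (2 * M + 1)
          = (M ^ 2 + 2 * M + (2 * M + 1)) * (Real.cosh y * (Real.cosh y)⁻¹) := by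
            rw [mul_inv_cancel₀ (Real.cosh_pos y).ne', mul_one]
        _ ≤ (M ^ 2 + 2 * M + (2 * M + 1)) * (Real.cosh (|x| + 1) * (Real.cosh y)⁻¹) := by gcongr
        _ = C2 * (Real.cosh y)⁻¹ := by rw [hC2]; ring
        _ ≤ _ := by gcongr; linarith
  · have hch := inv_pos.mpr (Real.cosh_pos y)
    refine (kernel_conj_le h hg' x y).trans ?_
    gcongr
    linarith

end Pool.Agent.Helper16.NP
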